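import Pool.Agent.H749R4.Mach

set_option autoImplicit false

namespace Pool.Agent.Results.MP_8eb3db_al.RationalInfGen

/-- The cogrowth series of a subgroup `H` of the free group `F_m`: the coefficient of `X^n` is the
number of `h ∈ H` of length `n` (`FreeGroup.norm` is the length of the freely reduced word). -/
noncomputable def cogrowth {m : ℕ} (H : Subgroup (FreeGroup (Fin m))) : PowerSeries ℚ :=
  PowerSeries.mk fun n => (Nat.card {h : FreeGroup (Fin m) // h ∈ H ∧ h.norm = n} : ℚ)

/-- A power series over `ℚ` is rational: `Q * f = P` for polynomials `P`, `Q` with `Q ≠ 0`. -/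
def IsRational (f : PowerSeries ℚ) : Prop :=
  ∃ P Q : Polynomial ℚ, Q ≠ 0 ∧ (Q : PowerSeries ℚ) * f = (P : PowerSeries ℚ)

/-- Every free group `F_m` of large rank has a subgroup which is not finitely generated and whose
cogrowth series is the rational function `(1 - 100 X) / (1 - 100 X - 2 X ^ 10)`; so rationality of
the cogrowth series is not equivalent to finite generation. -/
theorem result :
    (∀ m : ℕ, 1051020 ≤ m → ∃ H : Subgroup (FreeGroup (Fin m)), ¬ H.FG ∧
      (1 - 100 * PowerSeries.X - 2 * PowerSeries.X ^ 10) * cogrowth H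
        = 1 - 100 * PowerSeries.X) ∧
    ¬ (∀ m : ℕ, 1 ≤ m → ∀ H : Subgroup (FreeGroup (Fin m)), IsRational (cogrowth H) ↔ H.FG) := by
  have main : ∀ m : ℕ, 1051020 ≤ m → ∃ H : Subgroup (FreeGroup (Fin m)), ¬ H.FG ∧
      (1 - 100 * PowerSeries.X - 2 * PowerSeries.X ^ 10) * cogrowth H
        = 1 - 100 * PowerSeries.X := by
    intro m hm
    obtain ⟨H, hH, hG⟩ := H749.Cog.exists_main (P := m - 30612) (Q := 10204) (by omega) (le_refl _)
    have hc : Nat.card (Fin (m - 30612) ⊕ (Fin 3 × Fin 10204)) = m := by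
      simp
      omega
    obtain ⟨H', hH', hcard⟩ := H749.Cog.transport (Finite.equivFinOfCardEq hc) H hH
    refine ⟨H', hH', ?_⟩
    have e : cogrowth H' = PowerSeries.map (Int.castRingHom ℚ)
        (H749.Cog.gf (H : Set (FreeGroup (Fin (m - 30612) ⊕ (Fin 3 × Fin 10204))))) := by
      ext n
      rw [cogrowth, PowerSeries.coeff_mk, PowerSeries.coeff_map, ← H749.Cog.card_eq_gf, hcard]
      simp
    have h2 := congrArg (PowerSeries.map (Int.castRingHom ℚ)) hG
    have d1 : PowerSeries.map (Int.castRingHom ℚ) 100 = 100 := map_ofNat _ 100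
    have d2 : PowerSeries.map (Int.castRingHom ℚ) 2 = 2 := map_ofNat _ 2
    rw [map_mul, ← e] at h2
    simpa [d1, d2] using h2
  refine ⟨main, ?_⟩
  intro h
  obtain ⟨H, hH, hG⟩ := main 1051020 (le_refl _)
  apply hH
  rw [← h 1051020 (by norm_num) H]
  refine ⟨1 - Polynomial.C 100 * Polynomial.X,
    1 - Polynomial.C 100 * Polynomial.X - Polynomial.C 2 * Polynomial.X ^ 10, ?_, ?_⟩
  · intro h0
    have := congrArg (Polynomial.eval 0) h0
    simp at this
  · have c1 : (PowerSeries.C (100 : ℚ) : PowerSeries ℚ) = 100 := map_ofNat _ 100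
    have c2 : (PowerSeries.C (2 : ℚ) : PowerSeries ℚ) = 2 := map_ofNat _ 2
    push_cast
    rw [c1, c2]
    exact hG

end Pool.Agent.Results.MP_8eb3db_al.RationalInfGen
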